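import Pool.Agent.H37.CNK.Stmts

/-!
Row PCN of the board cnk (MP_b57703_ag).
-/

set_option autoImplicit false

namespace Pool.CND

theorem pcn_thm (h1 : S_PCZ) (h2 : S_OM3) (h3 : S_NGD) : S_PCN := by
  intro p k G _ _ _ _ _ hp hp2 hcard
  have hint : (∀ x : G, x ^ p = 1 → x ∈ Subgroup.center G) →
      ∀ c ∈ Cond k G, ∃ n : ℤ, c = n := by
    intro hc c hcc
    obtain ⟨L, iL, iA, ρ, t, hcov, P, hP, hcon⟩ := hcc
    let _ : Fintype G := Fintype.ofFinite G
    have hpcv : PCv p ρ t P := ⟨hp, inferInstance, hcard, hcov, hP⟩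
    exact h1 p k L G ρ t P c hpcv hp2 hc hcon
  refine ⟨hint, ?_, ?_⟩
  · intro hN x hx
    by_contra hxc
    have hd := h2 p k G hp hp2 hcard x hx hxc
    rw [hN] at hd
    exact hp.one_lt.ne' (Nat.dvd_one.mp hd)
  · intro hc
    have hd : NG k G ∣ 1 := by
      refine h3 k G 1 le_rfl ?_
      intro c hcc
      obtain ⟨z, hz⟩ := hint hc c hcc
      exact ⟨z, by simpa using hz⟩
    exact Nat.dvd_one.mp hd

end Pool.CND
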